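import Pool.Agent.H29.ENR.Stmts3

/-!
# Row MOD of board enr: a Galois ring in an abelian group with an automorphism
-/

set_option autoImplicit false

namespace Pool.ENR

theorem MODaux.iter {A : Type} [AddCommGroup A] (D : AddSubgroup A) (α : A →+ A)
    (h : D ≤ D.comap α) (k : ℕ) (x : A) :
    (QuotientAddGroup.map D D α h)^[k] (QuotientAddGroup.mk' D x) =
      QuotientAddGroup.mk' D (α^[k] x) := by
  induction k with
  | zero => rfl
  | succ k ih =>
    rw [Function.iterate_succ_apply', ih, Function.iterate_succ_apply']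
    rfl

theorem mod_thm (hMO2 : MO2Stmt) : MODStmt := by
  classical
  intro A _ _ p c m α z hp hc hm hα hz hne
  obtain ⟨w, hw⟩ : ∃ w, w = α (p ^ (c - 1) • z) - p ^ (c - 1) • z := ⟨_, rfl⟩
  have hw0 : w ≠ 0 := by rw [hw]; exact sub_ne_zero.2 hne
  have hm0 : m ≠ 0 := by rintro rfl; exact hm (dvd_zero p)
  -- a maximal invariant subgroup without `w`
  obtain ⟨D, hD⟩ : ∃ D : AddSubgroup A, Maximal
      (fun D : AddSubgroup A => (∀ x ∈ D, α x ∈ D) ∧ w ∉ D) D := by
    have h1 : ({D : AddSubgroup A | (∀ x ∈ D, α x ∈ D) ∧ w ∉ D}).Finite := Set.toFinite _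
    have h2 : ({D : AddSubgroup A | (∀ x ∈ D, α x ∈ D) ∧ w ∉ D}).Nonempty := by
      refine ⟨⊥, ?_, ?_⟩
      · intro x hx
        rw [AddSubgroup.mem_bot] at hx ⊢
        rw [hx, map_zero]
      · rw [AddSubgroup.mem_bot]
        exact hw0
    exact h1.exists_maximal h2
  obtain ⟨hDinv, hwD⟩ := hD.prop
  have hle : D ≤ D.comap α := fun x hx => hDinv x hx
  obtain ⟨α', hα'⟩ : ∃ α', α' = QuotientAddGroup.map D D α hle := ⟨_, rfl⟩
  have hmk : ∀ x : A, α' (QuotientAddGroup.mk' D x) = QuotientAddGroup.mk' D (α x) := by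
    intro x; rw [hα']; rfl
  have hfin : Finite (A ⧸ D) := inferInstance
  have hiter : ∀ x, α'^[m] x = x := by
    intro x
    obtain ⟨y, rfl⟩ := QuotientAddGroup.mk'_surjective D x
    rw [hα', MODaux.iter, hα]
  have hw' : QuotientAddGroup.mk' D w ≠ 0 := by
    intro h
    exact hwD ((QuotientAddGroup.eq_zero_iff w).1 h)
  have hU : ∀ U : AddSubgroup (A ⧸ D), U ≠ ⊥ → (∀ x ∈ U, α' x ∈ U) →
      QuotientAddGroup.mk' D w ∈ U := by
    intro U hU0 hUinv
    by_contra hcon
    apply hU0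
    have h1 : (∀ x ∈ U.comap (QuotientAddGroup.mk' D), α x ∈ U.comap (QuotientAddGroup.mk' D)) ∧
        w ∉ U.comap (QuotientAddGroup.mk' D) := by
      refine ⟨?_, hcon⟩
      intro x hx
      rw [AddSubgroup.mem_comap] at hx ⊢
      rw [← hmk]
      exact hUinv _ hx
    have h2 : D ≤ U.comap (QuotientAddGroup.mk' D) := by
      intro x hx
      rw [AddSubgroup.mem_comap]
      have : QuotientAddGroup.mk' D x = 0 := (QuotientAddGroup.eq_zero_iff x).2 hx
      rw [this]
      exact U.zero_mem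
    have h3 := hD.le_of_ge h1 h2
    rw [eq_bot_iff]
    intro y hy
    obtain ⟨x, rfl⟩ := QuotientAddGroup.mk'_surjective D y
    rw [AddSubgroup.mem_bot]
    exact (QuotientAddGroup.eq_zero_iff x).2 (h3 hy)
  have hz' : p ^ c • QuotientAddGroup.mk' D z = 0 := by
    rw [← map_nsmul, hz, map_zero]
  have hne' : α' (p ^ (c - 1) • QuotientAddGroup.mk' D z) ≠
      p ^ (c - 1) • QuotientAddGroup.mk' D z := by
    intro h
    apply hw'
    rw [hw, map_sub, ← hmk, map_nsmul, h, sub_self]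
  obtain ⟨R, instR, ε, ζ, hG, hinj, h1, hζ, hu, hm1⟩ := hMO2 (A ⧸ D) p c m α'
    (QuotientAddGroup.mk' D z) (QuotientAddGroup.mk' D w) hp hc hm hiter hw' hU hz' hne'
  let N : AddSubgroup A := ε.range.comap (QuotientAddGroup.mk' D)
  let π : N →+ R := ((AddMonoidHom.ofInjective hinj).symm : ε.range →+ R).comp
    ((QuotientAddGroup.mk' D).addSubgroupComap ε.range)
  have hπ : ∀ x : N, ε (π x) = QuotientAddGroup.mk' D (x : A) := by
    intro x
    have h2 : (AddMonoidHom.ofInjective hinj) (π x) =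
        (QuotientAddGroup.mk' D).addSubgroupComap ε.range x :=
      (AddMonoidHom.ofInjective hinj).apply_symm_apply _
    exact congrArg Subtype.val h2
  have hfwd : ∀ x, x ∈ N → α x ∈ N := by
    intro x hx
    obtain ⟨y, hy⟩ := hx
    refine ⟨ζ * y, ?_⟩
    rw [← hζ, hy, hmk]
  have hfwd' : ∀ k x, x ∈ N → α^[k] x ∈ N := by
    intro k
    induction k with
    | zero => intro x hx; exact hx
    | succ k ih =>
      intro x hx
      rw [Function.iterate_succ_apply']
      exact hfwd _ (ih x hx)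
  refine ⟨R, instR, N, π, ζ, hG, ?_, ?_, ?_, ?_, hu, hm1⟩
  · intro y
    obtain ⟨x, hx⟩ := QuotientAddGroup.mk'_surjective D (ε y)
    refine ⟨⟨x, ⟨y, hx.symm⟩⟩, ?_⟩
    apply hinj
    rw [hπ]
    exact hx
  · intro x
    refine ⟨hfwd x, fun hx => ?_⟩
    have h2 := hfwd' (m - 1) _ hx
    rw [← Function.iterate_succ_apply] at h2
    have h3 : (m - 1).succ = m := by omega
    rwa [h3, hα] at h2
  · refine ⟨⟨1, h1⟩, ?_⟩
    apply hinj
    rw [hπ, h1]
  · intro x y hxy
    apply hinj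
    rw [hπ, ← hζ, hπ, hmk, hxy]

end Pool.ENR
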