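import Pool.Agent.H36.ENR.Stmts2

/-!
# Row H9A of board enr: Hilbert 90, additive form
-/

set_option autoImplicit false

namespace Pool.ENR

theorem H9Aaux.shift {F : Type} [Field F] (f : ℕ → F) (n : ℕ) :
    ∑ l ∈ Finset.range n, f (l + 1) = ∑ l ∈ Finset.range n, f l + f n - f 0 := by
  have h1 := Finset.sum_range_succ f n
  have h2 := Finset.sum_range_succ' f n
  rw [← h1, h2, add_sub_cancel_right]

theorem h9a_thm (hDED : DEDStmt) : H9AStmt := by
  intro F _ φ n b ho hn hb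
  obtain ⟨x, hx⟩ := hDED F φ n (fun _ => 1) ho hn one_ne_zero
  simp only [one_mul] at hx
  obtain ⟨t, ht⟩ : ∃ t, t = ∑ l ∈ Finset.range n, (φ ^ l) x := ⟨_, rfl⟩
  rw [← ht] at hx
  have hφn : φ ^ n = 1 := by rw [← ho]; exact pow_orderOf_eq_one φ
  have hstep : ∀ (l : ℕ) (v : F), φ ((φ ^ l) v) = (φ ^ (l + 1)) v := by
    intro l v
    rw [pow_succ']
    rfl
  have ht1 : ∑ l ∈ Finset.range n, (φ ^ (l + 1)) x = t := by
    rw [H9Aaux.shift (fun l => (φ ^ l) x), ← ht, hφn]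
    show t + x - x = t
    ring
  have hφt : φ t = t := by
    rw [ht, map_sum]
    simp only [hstep]
    rw [ht1, ht]
  obtain ⟨B, hB⟩ : ∃ B : ℕ → F, B = fun l => ∑ i ∈ Finset.range l, (φ ^ i) b := ⟨_, rfl⟩
  have hB0 : B 0 = 0 := by rw [hB]; simp
  have hBn : B n = 0 := by rw [hB]; exact hb
  have hφB : ∀ l, φ (B l) = B (l + 1) - b := by
    intro l
    rw [hB]
    dsimp only
    rw [map_sum, Finset.sum_range_succ']
    simp only [hstep]
    show _ = _ + b - b
    ring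
  obtain ⟨s, hs⟩ : ∃ s, s = ∑ l ∈ Finset.range n, B l * (φ ^ l) x := ⟨_, rfl⟩
  have hφs : φ s = s - b * t := by
    have h1 : φ s = ∑ l ∈ Finset.range n, (B (l + 1) * (φ ^ (l + 1)) x - b * (φ ^ (l + 1)) x) := by
      rw [hs, map_sum]
      refine Finset.sum_congr rfl fun l _ => ?_
      rw [map_mul, hφB, hstep]
      ring
    rw [h1, Finset.sum_sub_distrib, ← Finset.mul_sum, ht1,
      H9Aaux.shift (fun l => B l * (φ ^ l) x), ← hs]
    simp only [hB0, hBn]
    ring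
  refine ⟨t⁻¹ * s, ?_⟩
  rw [map_mul, map_inv₀, hφt, hφs]
  field_simp
  ring

end Pool.ENR
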